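import Pool.Agent.H29.LA.Targets

/-!
Row CJR of the board lar_modules (`MP_6b5a9a_nt`): rescaling of the roots.
-/

set_option autoImplicit false

open Polynomial

namespace Pool.Agent.H33.LAR

open Pool.Agent.H29.LA

section

variable {K Ω : Type} [Field K] [Field Ω] [Algebra K Ω] {Γ₀ : Type}
  [LinearOrderedCommGroupWithZero Γ₀] (V : Valuation Ω Γ₀)

theorem CJR_nat (n : ℕ) : V (n : Ω) ≤ 1 := by
  induction n with
  | zero => simp
  | succ n ih =>
    rw [Nat.cast_succ]
    exact V.map_add_le ih V.map_one.le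

/-- the sum of the lower terms -/
theorem CJR_sum {m : ℕ} {G : K[X]} (hG : G.Monic) (hm : G.natDegree = m) (u : Ω)
    (h0 : aeval u G = 0) :
    u ^ m = -∑ i ∈ Finset.range m, algebraMap K Ω (G.coeff i) * u ^ i := by
  rw [aeval_eq_sum_range, hm, Finset.sum_range_succ] at h0
  have h1 : G.coeff m = 1 := by
    rw [← hm]
    exact hG
  rw [h1, one_smul] at h0
  simp only [Algebra.smul_def] at h0
  exact eq_neg_of_add_eq_zero_right h0

end

/-- (CJR) rescaling of the roots -/
theorem pf_CJR : T_CJR := by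
  intro K Ω _ _ _ Γ₀ _ V π p r hr hc0 hc1 hp hm hVm hco hco0
  obtain ⟨m, hm'⟩ : ∃ m, m = p.natDegree := ⟨_, rfl⟩
  obtain ⟨q, hq⟩ : ∃ q, q = V (algebraMap K Ω π) ^ r := ⟨_, rfl⟩
  rw [← hm'] at hm hVm hco hco0
  rw [pow_mul, ← hq] at hco0
  simp only [pow_mul, ← hq] at hco
  have hq0 : 0 < q := by
    rw [hq]
    exact pow_pos hc0 r
  have hq1 : q < 1 := by
    rw [hq]
    exact pow_lt_one₀ hc0.le hc1 hr.ne'
  have hπ : algebraMap K Ω π ≠ 0 := (V.ne_zero_iff).1 hc0.ne'
  obtain ⟨s, hs⟩ : ∃ s : K, s = (π ^ r)⁻¹ := ⟨_, rfl⟩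
  have hVs : V (algebraMap K Ω s) = q⁻¹ := by
    rw [hs, map_inv₀, map_inv₀, map_pow, map_pow, hq]
  obtain ⟨G, hG⟩ : ∃ G, G = p.scaleRoots s := ⟨_, rfl⟩
  have hGm : G.Monic := by
    rw [hG, monic_scaleRoots_iff]
    exact hp
  have hGd : G.natDegree = m := by
    rw [hG, natDegree_scaleRoots, hm']
  have hGc : ∀ i, G.coeff i = p.coeff i * s ^ (m - i) := by
    intro i
    rw [hG, coeff_scaleRoots, hm']
  have hb : ∀ i < m, V (algebraMap K Ω (G.coeff i)) ≤ q ^ i := by
    intro i hi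
    rw [hGc, map_mul, map_mul, map_pow, map_pow, hVs]
    calc V (algebraMap K Ω (p.coeff i)) * q⁻¹ ^ (m - i) ≤ q ^ m * q⁻¹ ^ (m - i) :=
          mul_le_mul_left (hco i hi) _
      _ = q ^ i := by
          rw [inv_pow, ← pow_sub₀ _ hq0.ne' (by omega)]
          congr 1
          omega
  have hb0 : V (algebraMap K Ω (G.coeff 0)) = 1 := by
    rw [hGc, map_mul, map_mul, map_pow, map_pow, hVs, hco0, Nat.sub_zero, ← mul_pow,
      mul_inv_cancel₀ hq0.ne', one_pow]
  have hb1 : ∀ i, V (algebraMap K Ω (G.coeff i)) ≤ 1 := by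
    intro i
    rcases lt_trichotomy i m with h | h | h
    · exact (hb i h).trans (pow_le_one₀ hq0.le hq1.le)
    · have h1 : G.coeff i = 1 := by
        rw [h, ← hGd]
        exact hGm
      rw [h1, map_one, map_one]
    · rw [coeff_eq_zero_of_natDegree_lt (by rw [hGd]; exact h), map_zero, map_zero]
      exact zero_le_one
  refine ⟨G, hGm, hb1, fun t ht => ?_⟩
  have hroot : aeval (t / algebraMap K Ω π ^ r) G = 0 := by
    have h1 := scaleRoots_aeval_eq_zero (r := s) ht
    rw [← hG] at h1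
    have h2 : algebraMap K Ω s * t = t / algebraMap K Ω π ^ r := by
      rw [hs, map_inv₀, map_pow, div_eq_inv_mul]
    rwa [h2] at h1
  refine ⟨hroot, ?_⟩
  obtain ⟨u, hu⟩ : ∃ u, u = t / algebraMap K Ω π ^ r := ⟨_, rfl⟩
  rw [← hu] at hroot ⊢
  have hsum := CJR_sum hGm hGd u hroot
  -- `V u ≤ 1`
  have hu1 : V u ≤ 1 := by
    by_contra hcon
    rw [not_le] at hcon
    have h1 : V (∑ i ∈ Finset.range m, algebraMap K Ω (G.coeff i) * u ^ i) < V u ^ m := by
      refine V.map_sum_lt' (pow_pos (zero_lt_one.trans hcon) m) fun i hi => ?_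
      rw [map_mul, map_pow]
      calc V (algebraMap K Ω (G.coeff i)) * V u ^ i ≤ 1 * V u ^ i :=
            mul_le_mul_left (hb1 i) _
        _ < V u ^ m := by
            rw [one_mul]
            exact pow_lt_pow_right₀ hcon (Finset.mem_range.1 hi)
    have h2 := congrArg V hsum
    rw [map_pow, V.map_neg] at h2
    exact h1.ne' h2
  have hu2 : V u = 1 := by
    by_contra hcon
    have hlt : V u < 1 := lt_of_le_of_ne hu1 hcon
    obtain ⟨m', rfl⟩ : ∃ m', m = m' + 1 := ⟨m - 1, by omega⟩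
    rw [Finset.sum_range_succ', pow_zero, mul_one] at hsum
    have h1 : algebraMap K Ω (G.coeff 0) = -(u ^ (m' + 1) +
        ∑ i ∈ Finset.range m', algebraMap K Ω (G.coeff (i + 1)) * u ^ (i + 1)) := by
      rw [hsum]
      ring
    have h2 : V (algebraMap K Ω (G.coeff 0)) < 1 := by
      rw [h1, V.map_neg]
      refine V.map_add_lt ?_ (V.map_sum_lt' zero_lt_one fun i hi => ?_)
      · rw [map_pow]
        exact pow_lt_one₀ zero_le hlt (by omega)
      · rw [map_mul, map_pow]
        calc V (algebraMap K Ω (G.coeff (i + 1))) * V u ^ (i + 1) ≤ 1 * V u ^ (i + 1) :=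
              mul_le_mul_left (hb1 _) _
          _ < 1 := by
              rw [one_mul]
              exact pow_lt_one₀ zero_le hlt (by omega)
    exact h2.ne hb0
  -- the derivative
  obtain ⟨m', rfl⟩ : ∃ m', m = m' + 1 := ⟨m - 1, by omega⟩
  have hdeg : (derivative G).natDegree < m' + 1 := by
    have := natDegree_derivative_lt (p := G) (by omega)
    omega
  rw [aeval_eq_sum_range' hdeg, Finset.sum_range_succ]
  have h1 : G.coeff (m' + 1) = 1 := by
    rw [← hGd]
    exact hGm
  have h2 : V ((derivative G).coeff m' • u ^ m') = 1 := by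
    rw [coeff_derivative, h1, one_mul, Algebra.smul_def, map_mul, map_pow, hu2, one_pow, mul_one,
      map_add, map_natCast, map_one]
    rw [Nat.cast_succ] at hVm
    exact hVm
  rw [V.map_add_eq_of_lt_right, h2]
  rw [h2]
  refine V.map_sum_lt' zero_lt_one fun i hi => ?_
  rw [coeff_derivative, Algebra.smul_def, map_mul, map_pow, hu2, one_pow, mul_one, map_mul,
    map_mul]
  have h3 := hb (i + 1) (by have := Finset.mem_range.1 hi; omega)
  have h4 : V (algebraMap K Ω ((i : K) + 1)) ≤ 1 := by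
    have := CJR_nat V (i + 1)
    rw [map_add, map_natCast, map_one]
    rw [Nat.cast_succ] at this
    exact this
  calc V (algebraMap K Ω (G.coeff (i + 1))) * V (algebraMap K Ω ((i : K) + 1))
      ≤ q ^ (i + 1) * 1 := mul_le_mul' h3 h4
    _ < 1 := by
      rw [mul_one]
      exact pow_lt_one₀ hq0.le hq1 (by omega)

end Pool.Agent.H33.LAR
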